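import Pool.Agent.U737.MN.Stm2
import Pool.Agent.TH444.ML.Tr

/-!
Project MN, package DiscSup: root discriminant of a compositum.
-/

set_option autoImplicit false

open NumberField Filter Topology

namespace Pool.Agent.U608.MN

open Pool.Agent.TH444.ML (dsc dsc_eq one_le_dsc nf_of_fd)

/-- the discriminant of a compositum of two number fields -/
theorem discr_le (h : Pool.Agent.U737.MN.DiffDvd) (A B N : Type) [Field A] [NumberField A]
    [Field B] [NumberField B] [Field N] [NumberField N] [Algebra A N] [Algebra B N]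
    (hg : ∀ S : Subfield N, (algebraMap A N).fieldRange ≤ S → (algebraMap B N).fieldRange ≤ S →
      S = ⊤) :
    (discr N).natAbs ≤
      (discr A).natAbs ^ Module.finrank A N * (discr B).natAbs ^ Module.finrank B N := by
  have h1 := natAbs_discr_eq_absNorm_differentIdeal_mul_natAbs_discr_pow A (𝓞 A) N (𝓞 N)
  have h2 := h A B N hg
  have h3 : Ideal.absNorm ((differentIdeal ℤ (𝓞 B)).map (algebraMap (𝓞 B) (𝓞 N))) =
      (discr B).natAbs ^ Module.finrank B N := by
    rw [Ideal.absNorm_algebraMap, absNorm_differentIdeal B,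
      ← IsFractionRing.finrank_eq (𝓞 B) B (𝓞 N) N]
  have h4 : Ideal.absNorm (differentIdeal (𝓞 A) (𝓞 N)) ∣ (discr B).natAbs ^ Module.finrank B N := by
    rw [← h3]
    exact Ideal.absNorm_dvd_absNorm_of_le (Ideal.dvd_iff_le.1 h2)
  have h5 : 0 < (discr B).natAbs ^ Module.finrank B N :=
    pow_pos (Int.natAbs_pos.2 (discr_ne_zero B)) _
  rw [h1, mul_comm]
  exact Nat.mul_le_mul_left _ (Nat.le_of_dvd h5 h4)

theorem log_discr_le (h : Pool.Agent.U737.MN.DiffDvd) (A B N : Type) [Field A] [NumberField A]
    [Field B] [NumberField B] [Field N] [NumberField N] [Algebra A N] [Algebra B N]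
    (hg : ∀ S : Subfield N, (algebraMap A N).fieldRange ≤ S → (algebraMap B N).fieldRange ≤ S →
      S = ⊤) :
    Real.log ((|discr N| : ℤ) : ℝ) ≤ Module.finrank A N * Real.log ((|discr A| : ℤ) : ℝ) +
      Module.finrank B N * Real.log ((|discr B| : ℤ) : ℝ) := by
  have e : ∀ z : ℤ, ((|z| : ℤ) : ℝ) = ((z.natAbs : ℕ) : ℝ) := by
    intro z
    rw [Int.abs_eq_natAbs]
    simp
  have hpos : ∀ (M : Type) [Field M] [NumberField M], (0:ℝ) < ((discr M).natAbs : ℝ) := by
    intro M _ _
    exact_mod_cast Int.natAbs_pos.2 (discr_ne_zero M)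
  have h1 : ((discr N).natAbs : ℝ) ≤
      ((discr A).natAbs : ℝ) ^ Module.finrank A N * ((discr B).natAbs : ℝ) ^ Module.finrank B N := by
    exact_mod_cast discr_le h A B N hg
  rw [e, e, e, ← Real.log_pow, ← Real.log_pow, ← Real.log_mul (pow_pos (hpos A) _).ne'
    (pow_pos (hpos B) _).ne']
  exact Real.log_le_log (hpos N) h1

theorem t_DiscSup : (Pool.Agent.U737.MN.DiffDvd → Pool.Agent.U737.MN.DiscSup) := by
  intro h K Ω _ _ _ _ A B _ _
  have hA : NumberField A := nf_of_fd A
  have hB : NumberField B := nf_of_fd B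
  have hNf : FiniteDimensional K (A ⊔ B : IntermediateField K Ω) :=
    IntermediateField.finiteDimensional_sup A B
  have hN : NumberField (A ⊔ B : IntermediateField K Ω) := nf_of_fd (A ⊔ B)
  rw [dsc_eq, dsc_eq, dsc_eq]
  letI iA : Algebra A (A ⊔ B : IntermediateField K Ω) :=
    (IntermediateField.inclusion (le_sup_left : A ≤ A ⊔ B)).toRingHom.toAlgebra
  letI iB : Algebra B (A ⊔ B : IntermediateField K Ω) :=
    (IntermediateField.inclusion (le_sup_right : B ≤ A ⊔ B)).toRingHom.toAlgebra
  haveI tA : IsScalarTower K A (A ⊔ B : IntermediateField K Ω) :=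
    IsScalarTower.of_algebraMap_eq fun x => by
      apply Subtype.ext
      rfl
  haveI tB : IsScalarTower K B (A ⊔ B : IntermediateField K Ω) :=
    IsScalarTower.of_algebraMap_eq fun x => by
      apply Subtype.ext
      rfl
  have hg : ∀ S : Subfield (A ⊔ B : IntermediateField K Ω),
      (algebraMap A (A ⊔ B : IntermediateField K Ω)).fieldRange ≤ S →
      (algebraMap B (A ⊔ B : IntermediateField K Ω)).fieldRange ≤ S → S = ⊤ := by
    intro S hSA hSB
    set T : Subfield Ω := S.map (algebraMap (A ⊔ B : IntermediateField K Ω) Ω) with hT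
    have hTA : ∀ x : A, (x : Ω) ∈ T := by
      intro x
      refine Subfield.mem_map.2 ⟨algebraMap A (A ⊔ B : IntermediateField K Ω) x, hSA ⟨x, rfl⟩, ?_⟩
      rfl
    have hTB : ∀ x : B, (x : Ω) ∈ T := by
      intro x
      refine Subfield.mem_map.2 ⟨algebraMap B (A ⊔ B : IntermediateField K Ω) x, hSB ⟨x, rfl⟩, ?_⟩
      rfl
    have hTK : ∀ x : K, algebraMap K Ω x ∈ T := by
      intro x
      have := hTA (algebraMap K A x)
      exact this
    let T' : IntermediateField K Ω := Subfield.toIntermediateField T hTK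
    have hle : A ⊔ B ≤ T' := sup_le (fun x hx => hTA ⟨x, hx⟩) (fun x hx => hTB ⟨x, hx⟩)
    rw [eq_top_iff]
    intro x _
    have hx : (x : Ω) ∈ T := hle x.2
    obtain ⟨y, hy, hyx⟩ := Subfield.mem_map.1 hx
    have : y = x := Subtype.ext hyx
    rw [← this]
    exact hy
  have hmain := log_discr_le h A B (A ⊔ B : IntermediateField K Ω) hg
  have fA := Module.finrank_mul_finrank K A (A ⊔ B : IntermediateField K Ω)
  have fB := Module.finrank_mul_finrank K B (A ⊔ B : IntermediateField K Ω)
  have pA : 0 < Module.finrank K A := Module.finrank_pos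
  have pB : 0 < Module.finrank K B := Module.finrank_pos
  have pN : 0 < Module.finrank K (A ⊔ B : IntermediateField K Ω) := Module.finrank_pos
  have pA' : (0:ℝ) < Module.finrank K A := by exact_mod_cast pA
  have pB' : (0:ℝ) < Module.finrank K B := by exact_mod_cast pB
  have pN' : (0:ℝ) < Module.finrank K (A ⊔ B : IntermediateField K Ω) := by exact_mod_cast pN
  have fA' : (Module.finrank K A : ℝ) * Module.finrank A (A ⊔ B : IntermediateField K Ω) =
      Module.finrank K (A ⊔ B : IntermediateField K Ω) := by exact_mod_cast fA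
  have fB' : (Module.finrank K B : ℝ) * Module.finrank B (A ⊔ B : IntermediateField K Ω) =
      Module.finrank K (A ⊔ B : IntermediateField K Ω) := by exact_mod_cast fB
  rw [div_le_iff₀ pN']
  refine hmain.trans (le_of_eq ?_)
  rw [add_mul]
  congr 1
  · rw [← fA']
    field_simp
  · rw [← fB']
    field_simp

end Pool.Agent.U608.MN
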